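import Pool.Agent.helper36.PT.Spec

/-! # Project PT, row CLS -/

set_option autoImplicit false

namespace Pool.Agent.PT

open Finset Pool.Agent.helper71.AA

lemma CLS_ef_nat (x : ℝ) (n : ℕ) : ef (n * x) = ef x ^ n := by
  unfold ef
  rw [← Complex.exp_nat_mul]
  congr 1
  push_cast
  ring

lemma CLS_ef_eq_one (x : ℝ) (h : ef x = 1) : ∃ n : ℤ, x = n := by
  unfold ef at h
  rw [Complex.exp_eq_one_iff] at h
  obtain ⟨n, hn⟩ := h
  refine ⟨n, ?_⟩
  have h2 : (2 * (Real.pi : ℂ) * Complex.I) ≠ 0 := by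
    simp [Real.pi_ne_zero]
  have h3 : (x : ℂ) * (2 * (Real.pi : ℂ) * Complex.I) = n * (2 * (Real.pi : ℂ) * Complex.I) := by
    rw [← hn]
    ring
  have h4 := mul_right_cancel₀ h2 h3
  exact_mod_cast h4

/-- orthogonality -/
lemma CLS_ind (m : ℕ) (hm : 0 < m) (t r₀ : ℤ) :
    ∑ i ∈ range m, ef (((r₀ + i : ℤ) : ℝ) * t / m) = if (m : ℤ) ∣ t then (m : ℂ) else 0 := by
  have hm' : (m : ℝ) ≠ 0 := by exact_mod_cast hm.ne'
  have h1 : ∀ i ∈ range m, ef (((r₀ + i : ℤ) : ℝ) * t / m) = ef (r₀ * t / m) * ef (t / m) ^ i := by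
    intro i _
    rw [← CLS_ef_nat, ← ef_add]
    congr 1
    push_cast
    ring
  rw [sum_congr rfl h1, ← mul_sum]
  split_ifs with h
  · obtain ⟨s, rfl⟩ := h
    have h2 : ef (((m : ℤ) * s : ℤ) / m) = 1 := by
      have : (((m : ℤ) * s : ℤ) : ℝ) / m = (s : ℝ) := by
        push_cast
        field_simp
      rw [this, ef_int]
    have h3 : ef (r₀ * ((m : ℤ) * s : ℤ) / m) = 1 := by
      have : (r₀ : ℝ) * (((m : ℤ) * s : ℤ) : ℝ) / m = ((r₀ * s : ℤ) : ℝ) := by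
        push_cast
        field_simp
      rw [this, ef_int]
    rw [h2, h3]
    simp
  · have h2 : ef ((t : ℝ) / m) ≠ 1 := by
      intro h3
      obtain ⟨n, hn⟩ := CLS_ef_eq_one _ h3
      apply h
      refine ⟨n, ?_⟩
      rw [div_eq_iff hm'] at hn
      have : (t : ℝ) = ((m * n : ℤ) : ℝ) := by
        rw [hn]
        push_cast
        ring
      exact_mod_cast this
    have h3 : ef ((t : ℝ) / m) ^ m = 1 := by
      rw [← CLS_ef_nat]
      have : (m : ℝ) * (t / m) = (t : ℝ) := by field_simp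
      rw [this, ef_int]
    rw [geom_sum_eq h2, h3]
    simp

lemma CLS_Tri_neg (y : ℝ) : Tri (-y) = Tri y := by
  unfold Tri
  rw [abs_neg]

theorem CLS (h1 : FEJ_stmt) : CLS_stmt := by
  intro N m c hN hm
  have hm' : (m : ℝ) ≠ 0 := by exact_mod_cast hm.ne'
  have hmpos : (0 : ℝ) < m := by exact_mod_cast hm
  have hmc : (m : ℂ) ≠ 0 := by exact_mod_cast hm.ne'
  have hN0 : 0 < N := by linarith
  -- the first residue
  obtain ⟨r₀, hr1, hr2⟩ : ∃ r₀ : ℤ, -(m : ℤ) < 2 * r₀ ∧ 2 * (r₀ - 1) ≤ -(m : ℤ) := by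
    refine ⟨-((m - 1) / 2), ?_, ?_⟩
    · omega
    · omega
  have hi : ∀ i ∈ range m, -(m : ℤ) < 2 * (r₀ + i) ∧ 2 * (r₀ + i) ≤ m := by
    intro i hi
    rw [mem_range] at hi
    constructor
    · omega
    · omega
  have hs : ∀ i ∈ range m, HasSum
      (fun a : ℤ => (1 / (m : ℂ)) * ef (((r₀ + i : ℤ) : ℝ) * c / m) *
        ((Fz N a : ℂ) * ef (a * (-((r₀ + i : ℤ) : ℝ) / m))))
      ((1 / (m : ℂ)) * ef (((r₀ + i : ℤ) : ℝ) * c / m) *
        ((N * Tri (N * (-((r₀ + i : ℤ) : ℝ) / m)) : ℝ) : ℂ)) := by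
    intro i hi'
    refine (h1 N _ hN ?_).mul_left _
    obtain ⟨g1, g2⟩ := hi i hi'
    rw [abs_div, abs_neg, abs_of_pos hmpos, div_le_div_iff₀ hmpos two_pos, one_mul]
    have g3 : |r₀ + (i : ℤ)| * 2 ≤ m := by
      rw [← abs_two (α := ℤ), ← abs_mul, abs_le]
      constructor
      · omega
      · omega
    exact_mod_cast g3
  have hs2 := hasSum_sum hs
  have hfun : (fun a : ℤ => ∑ i ∈ range m, (1 / (m : ℂ)) * ef (((r₀ + i : ℤ) : ℝ) * c / m) *
        ((Fz N a : ℂ) * ef (a * (-((r₀ + i : ℤ) : ℝ) / m)))) =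
      fun a : ℤ => (((if (m : ℤ) ∣ a - c then Fz N a else 0 : ℝ)) : ℂ) := by
    funext a
    have e1 : ∀ i ∈ range m, (1 / (m : ℂ)) * ef (((r₀ + i : ℤ) : ℝ) * c / m) *
        ((Fz N a : ℂ) * ef (a * (-((r₀ + i : ℤ) : ℝ) / m))) =
        (1 / (m : ℂ)) * (Fz N a : ℂ) * ef (((r₀ + i : ℤ) : ℝ) * ((c - a : ℤ) : ℝ) / m) := by
      intro i _
      have e2 : ((r₀ + i : ℤ) : ℝ) * ((c - a : ℤ) : ℝ) / m =
          ((r₀ + i : ℤ) : ℝ) * c / m + a * (-((r₀ + i : ℤ) : ℝ) / m) := by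
        push_cast
        ring
      rw [e2, ef_add]
      ring
    rw [sum_congr rfl e1, ← mul_sum, CLS_ind m hm]
    have e3 : ((m : ℤ) ∣ c - a) ↔ ((m : ℤ) ∣ a - c) := by
      rw [← dvd_neg, neg_sub]
    by_cases h : (m : ℤ) ∣ a - c
    · rw [if_pos h, if_pos (e3.2 h)]
      field_simp
    · rw [if_neg h, if_neg (fun h' => h (e3.1 h'))]
      simp
  rw [hfun] at hs2
  rw [Complex.ofReal_tsum, hs2.tsum_eq]
  -- the finite sum
  have e4 : ∀ i ∈ range m, (1 / (m : ℂ)) * ef (((r₀ + i : ℤ) : ℝ) * c / m) *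
        ((N * Tri (N * (-((r₀ + i : ℤ) : ℝ) / m)) : ℝ) : ℂ) =
      (fun k : ℤ => (wk N k m : ℂ) * ef (k * c / m)) (r₀ + i) := by
    intro i _
    have e5 : N * (-((r₀ + i : ℤ) : ℝ) / m) = -(N * ((r₀ + i : ℤ) : ℝ) / m) := by ring
    rw [e5, CLS_Tri_neg]
    simp only [wk]
    push_cast
    ring
  rw [sum_congr rfl e4]
  have e6 : ∑ i ∈ range m, (fun k : ℤ => (wk N k m : ℂ) * ef (k * c / m)) (r₀ + i) =
      ∑ k ∈ Ico r₀ (r₀ + m), (wk N k m : ℂ) * ef (k * c / m) := by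
    refine sum_bij (fun i _ => r₀ + (i : ℤ)) ?_ ?_ ?_ ?_
    · intro i hi'
      rw [mem_range] at hi'
      rw [mem_Ico]
      omega
    · intro i _ j _ hij
      have : (i : ℤ) = j := by linarith
      exact_mod_cast this
    · intro k hk
      rw [mem_Ico] at hk
      refine ⟨(k - r₀).toNat, ?_, ?_⟩
      · rw [mem_range]
        omega
      · omega
    · intro i _
      rfl
  rw [e6]
  have h0 : (0 : ℤ) ∈ Ico r₀ (r₀ + m) := by
    rw [mem_Ico]
    constructor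
    · omega
    · omega
  rw [← add_sum_erase _ _ h0]
  congr 1
  · unfold wk Tri
    simp [ef_zero]
  · unfold Fr
    refine sum_subset ?_ ?_
    · intro k hk
      rw [mem_erase, mem_Ico] at hk
      rw [mem_erase, mem_Icc]
      refine ⟨hk.1, ?_, ?_⟩
      · omega
      · omega
    · intro k hk hk2
      rw [mem_erase, mem_Icc] at hk
      have h3 : (m : ℤ) ≤ 2 * |k| := by
        by_contra h4
        push Not at h4
        apply hk2
        rw [mem_erase, mem_Ico]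
        have h5 := abs_lt.1 (show |2 * k| < m by rwa [abs_mul, abs_two])
        refine ⟨hk.1, ?_, ?_⟩
        · omega
        · omega
      have h4 : (m : ℝ) ≤ 2 * |(k : ℝ)| := by exact_mod_cast h3
      have h5 : (m : ℝ) ≤ N * |(k : ℝ)| := h4.trans (mul_le_mul_of_nonneg_right hN (abs_nonneg _))
      rw [wk_zero N k m hmpos h5 hN0]
      simp

end Pool.Agent.PT
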